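import Mathlib

/-!
The Boolean group on a space `Y` whose points are separated by a sequence of clopen sets, with
the topology induced by the translates of the parity-descent retraction.
-/

set_option autoImplicit false

open Filter Topology Set

namespace Pool.Agent.Lib.MP_e6ac2b_gt

variable {Y : Type}

/-- `x` and `y` lie in the same ones of the first `k` sets. -/
def Agree (C : ℕ → Set Y) (x y : Y) (k : ℕ) : Prop := ∀ i < k, (x ∈ C i ↔ y ∈ C i)

lemma Agree.refl (C : ℕ → Set Y) (x : Y) (k : ℕ) : Agree C x x k := fun _ _ => Iff.rfl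

lemma Agree.symm {C : ℕ → Set Y} {x y : Y} {k : ℕ} (h : Agree C x y k) : Agree C y x k :=
  fun i hi => (h i hi).symm

lemma Agree.trans {C : ℕ → Set Y} {x y z : Y} {k : ℕ} (h : Agree C x y k) (h' : Agree C y z k) :
    Agree C x z k := fun i hi => (h i hi).trans (h' i hi)

lemma Agree.mono {C : ℕ → Set Y} {x y : Y} {k l : ℕ} (h : Agree C x y k) (hl : l ≤ k) :
    Agree C x y l := fun i hi => h i (lt_of_lt_of_le hi hl)

open Classical in
/-- Parity of the number of points of `g` in the cell of depth `k` around `x`. -/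
noncomputable def par (C : ℕ → Set Y) (x : Y) (k : ℕ) : (Y →₀ ZMod 2) →ₗ[ZMod 2] ZMod 2 :=
  Finsupp.linearCombination (ZMod 2) (fun y => if Agree C y x k then (1 : ZMod 2) else 0)

open Classical in
lemma par_single (C : ℕ → Set Y) (x y : Y) (k : ℕ) (c : ZMod 2) :
    par C x k (Finsupp.single y c) = if Agree C y x k then c else 0 := by
  simp only [par, Finsupp.linearCombination_single, smul_eq_mul]
  split_ifs <;> simp

lemma par_congr (C : ℕ → Set Y) {x x' : Y} {k : ℕ} (h : Agree C x x' k) :
    par C x k = par C x' k := by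
  classical
  apply Finsupp.lhom_ext
  intro y c
  rw [par_single, par_single]
  have : Agree C y x k ↔ Agree C y x' k := ⟨fun h1 => h1.trans h, fun h1 => h1.trans h.symm⟩
  simp only [this]

/-- All cells around `x` contain an odd number of points of `g`. -/
def Good (C : ℕ → Set Y) (g : Y →₀ ZMod 2) (x : Y) : Prop := ∀ k, par C x k g = 1

lemma good_unique {C : ℕ → Set Y} (hsep : ∀ x y : Y, (∀ i, (x ∈ C i ↔ y ∈ C i)) → x = y)
    {g : Y →₀ ZMod 2} {x x' : Y} (hx : Good C g x) (hx' : Good C g x') : x = x' := by
  classical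
  by_contra hne
  have hex : ∃ i, ¬ (x ∈ C i ↔ x' ∈ C i) := by
    by_contra h
    push Not at h
    exact hne (hsep x x' (fun i => by simpa using h i))
  set k := Nat.find hex with hk
  have h1 : ¬ (x ∈ C k ↔ x' ∈ C k) := Nat.find_spec hex
  have h2 : Agree C x x' k := fun i hi => by
    have := Nat.find_min hex hi
    tauto
  have key : par C x k = par C x (k + 1) + par C x' (k + 1) := by
    apply Finsupp.lhom_ext
    intro y c
    rw [LinearMap.add_apply, par_single, par_single, par_single]
    have e1 : ∀ z : Y, Agree C y z (k + 1) ↔ Agree C y z k ∧ (y ∈ C k ↔ z ∈ C k) := by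
      intro z
      constructor
      · intro h
        exact ⟨h.mono (Nat.le_succ k), h k (Nat.lt_succ_self k)⟩
      · rintro ⟨h, h'⟩ i hi
        rcases Nat.lt_succ_iff_lt_or_eq.1 hi with hi | rfl
        · exact h i hi
        · exact h'
    have e2 : Agree C y x' k ↔ Agree C y x k := ⟨fun h => h.trans h2.symm, fun h => h.trans h2⟩
    simp only [e1, e2]
    by_cases ha : Agree C y x k
    · by_cases hy : (y ∈ C k ↔ x ∈ C k)
      · have : ¬ (y ∈ C k ↔ x' ∈ C k) := by tauto
        simp [ha, hy]
        tauto
      · have : (y ∈ C k ↔ x' ∈ C k) := by tauto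
        simp [ha, this]
        tauto
    · simp [ha]
  have := LinearMap.congr_fun key g
  rw [LinearMap.add_apply, hx k, hx (k + 1), hx' (k + 1)] at this
  exact absurd this (by decide)

lemma good_single (C : ℕ → Set Y) (y : Y) : Good C (Finsupp.single y 1) y := by
  intro k
  rw [par_single, if_pos (Agree.refl C y k)]

/-- Far enough down, the cell around `y` meets the support of `h` at most in `y`. -/
lemma exists_depth {C : ℕ → Set Y} (hsep : ∀ x y : Y, (∀ i, (x ∈ C i ↔ y ∈ C i)) → x = y)
    (h : Y →₀ ZMod 2) (y : Y) :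
    ∃ N, ∀ x, Agree C x y N → ∀ k, N ≤ k → par C x k h = par C x k (Finsupp.single y (h y)) := by
  classical
  have h1 : ∀ z ∈ h.support, ∀ᶠ N in atTop, z ≠ y → ¬ Agree C z y N := by
    intro z _
    by_cases hz : z = y
    · exact Eventually.of_forall fun _ h => absurd hz h
    · have : ∃ i, ¬ (z ∈ C i ↔ y ∈ C i) := by
        by_contra h
        push Not at h
        exact hz (hsep z y (fun i => by simpa using h i))
      obtain ⟨i, hi⟩ := this
      filter_upwards [eventually_gt_atTop i] with N hN _ hA
      exact hi (hA i hN)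
  obtain ⟨N, hN⟩ := ((Filter.eventually_all_finset h.support).2 h1).exists
  refine ⟨N, fun x hx k hk => ?_⟩
  rw [par_single]
  simp only [par, Finsupp.linearCombination_apply, Finsupp.sum, smul_eq_mul]
  rw [Finset.sum_eq_single y]
  · split_ifs <;> simp
  · intro z hz hzy
    rw [if_neg, mul_zero]
    intro hA
    exact hN z hz hzy ((hA.mono hk).trans hx)
  · intro hy
    simp [Finsupp.notMem_support_iff.1 hy]

lemma good_apply {C : ℕ → Set Y} (hsep : ∀ x y : Y, (∀ i, (x ∈ C i ↔ y ∈ C i)) → x = y)
    {g : Y →₀ ZMod 2} {x : Y} (hx : Good C g x) : g x = 1 := by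
  classical
  obtain ⟨N, hN⟩ := exists_depth hsep g x
  have := hN x (Agree.refl C x N) N le_rfl
  rw [hx N, par_single, if_pos (Agree.refl C x N)] at this
  exact this.symm

/-- The parity-descent retraction. -/
noncomputable def ret [Nonempty Y] (C : ℕ → Set Y) (g : Y →₀ ZMod 2) : Y :=
  Classical.epsilon (Good C g)

lemma ret_eq [Nonempty Y] {C : ℕ → Set Y}
    (hsep : ∀ x y : Y, (∀ i, (x ∈ C i ↔ y ∈ C i)) → x = y)
    {g : Y →₀ ZMod 2} {x : Y} (hx : Good C g x) : ret C g = x :=
  good_unique hsep (Classical.epsilon_spec ⟨x, hx⟩) hx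

/-- Moving one point a little. -/
lemma local_move {C : ℕ → Set Y} (hsep : ∀ x y : Y, (∀ i, (x ∈ C i ↔ y ∈ C i)) → x = y)
    (h : Y →₀ ZMod 2) (y₀ : Y) :
    ∃ N, (∀ y, Agree C y y₀ N → Good C (Finsupp.single y 1 + h) y) ∨
      (∀ y, Agree C y y₀ N →
        Good C (Finsupp.single y 1 + h) = Good C (Finsupp.single y₀ 1 + h)) := by
  classical
  obtain ⟨N, hN⟩ := exists_depth hsep h y₀
  refine ⟨N, ?_⟩
  -- a good point close to `y₀` forces goodness of the moved point
  have key : ∀ y y' x, Agree C y y₀ N → Agree C y' y₀ N → Agree C x y₀ N →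
      Good C (Finsupp.single y 1 + h) x → Good C (Finsupp.single y' 1 + h) y' := by
    intro y y' x hy hy' hx hg
    have h0 : h y₀ = 0 := by
      have := hg N
      rw [map_add, hN x hx N le_rfl, par_single, par_single, if_pos (hy.trans hx.symm),
        if_pos hx.symm] at this
      simpa using this
    intro k
    rcases le_total k N with hk | hk
    · have := hg k
      rw [map_add, par_single, if_pos ((hy.trans hx.symm).mono hk)] at this
      rw [map_add, par_single, if_pos (Agree.refl C y' k),
        par_congr C ((hy'.trans hx.symm).mono hk), this]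
    · rw [map_add, hN y' hy' k hk, par_single, par_single, if_pos (Agree.refl C y' k), h0]
      simp
  by_cases hA : Good C (Finsupp.single y₀ 1 + h) y₀
  · left
    intro y hy
    exact key y₀ y y₀ (Agree.refl C y₀ N) hy (Agree.refl C y₀ N) hA
  · right
    intro y hy
    funext x
    apply propext
    by_cases hx : Agree C x y₀ N
    · constructor
      · intro hg
        exact absurd (key y y₀ x hy (Agree.refl C y₀ N) hx hg) hA
      · intro hg
        exact absurd (key y₀ y₀ x (Agree.refl C y₀ N) (Agree.refl C y₀ N) hx hg) hA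
    · have : ∀ k, par C x k (Finsupp.single y 1 + h) = par C x k (Finsupp.single y₀ 1 + h) := by
        intro k
        rw [map_add, map_add, par_single, par_single]
        have : Agree C y x k ↔ Agree C y₀ x k := by
          rcases le_total k N with hk | hk
          · exact ⟨fun h1 => (hy.symm.mono hk).trans h1, fun h1 => (hy.mono hk).trans h1⟩
          · exact ⟨fun h1 => absurd ((h1.mono hk).symm.trans hy) hx,
              fun h1 => absurd (h1.mono hk).symm hx⟩
        simp only [this]
      simp only [Good, this]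

lemma isOpen_agree [TopologicalSpace Y] {C : ℕ → Set Y} (hC : ∀ i, IsClopen (C i)) (y₀ : Y)
    (N : ℕ) : IsOpen {y | Agree C y y₀ N} := by
  have : {y | Agree C y y₀ N} = ⋂ i ∈ Finset.range N, {y | y ∈ C i ↔ y₀ ∈ C i} := by
    ext y
    simp [Agree]
  rw [this]
  refine isOpen_biInter_finset fun i _ => ?_
  by_cases h : y₀ ∈ C i
  · simpa [h] using (hC i).isOpen
  · have : {y | y ∈ C i ↔ y₀ ∈ C i} = (C i)ᶜ := by
      ext y
      simp [h]
    rw [this]
    exact (hC i).isClosed.isOpen_compl

lemma continuous_ret_single [TopologicalSpace Y] [Nonempty Y] {C : ℕ → Set Y}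
    (hC : ∀ i, IsClopen (C i)) (hsep : ∀ x y : Y, (∀ i, (x ∈ C i ↔ y ∈ C i)) → x = y)
    (h : Y →₀ ZMod 2) : Continuous fun y : Y => ret C (Finsupp.single y 1 + h) := by
  rw [continuous_iff_continuousAt]
  intro y₀
  obtain ⟨N, hN⟩ := local_move hsep h y₀
  have hW : {y | Agree C y y₀ N} ∈ 𝓝 y₀ := (isOpen_agree hC y₀ N).mem_nhds (Agree.refl C y₀ N)
  rcases hN with hN | hN
  · refine (continuousAt_id (x := y₀)).congr ?_
    filter_upwards [hW] with y hy
    exact (ret_eq hsep (hN y hy)).symm
  · refine (continuousAt_const (y := ret C (Finsupp.single y₀ 1 + h))).congr ?_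
    filter_upwards [hW] with y hy
    simp only [ret, hN y hy]

lemma add_self_eq_zero' (g : Y →₀ ZMod 2) : g + g = 0 := by
  ext y
  simp [CharTwo.add_self_eq_zero]

lemma ret_translates_injective [Nontrivial Y] {C : ℕ → Set Y}
    (hsep : ∀ x y : Y, (∀ i, (x ∈ C i ↔ y ∈ C i)) → x = y) :
    Function.Injective fun (g : Y →₀ ZMod 2) (h : Y →₀ ZMod 2) => ret C (g + h) := by
  classical
  intro g₁ g₂ hg
  have h1 : ∀ y, ret C (Finsupp.single y 1 + (g₁ + g₂)) = y := by
    intro y
    have := congr_fun hg (Finsupp.single y 1 + g₁)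
    simp only at this
    have e1 : g₁ + (Finsupp.single y 1 + g₁) = Finsupp.single y 1 := by
      rw [add_left_comm, add_self_eq_zero', add_zero]
    have e2 : g₂ + (Finsupp.single y 1 + g₁) = Finsupp.single y 1 + (g₁ + g₂) := by abel
    rw [e1, e2, ret_eq hsep (good_single C y)] at this
    exact this.symm
  set d := g₁ + g₂ with hd
  suffices hd0 : d = 0 by
    have : g₁ + (g₂ + g₂) = d + g₂ := by rw [hd]; abel
    rw [add_self_eq_zero', add_zero, hd0, zero_add] at this
    exact this
  -- the default value
  set y₁ : Y := Classical.epsilon (fun _ : Y => False) with hy₁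
  have h2 : ∀ y, (¬ Good C (Finsupp.single y 1 + d) y) → y = y₁ := by
    intro y hy
    have : Good C (Finsupp.single y 1 + d) = fun _ => False := by
      funext x
      apply propext
      refine ⟨fun hx => ?_, False.elim⟩
      have e := ret_eq hsep hx
      rw [h1 y] at e
      exact hy (e ▸ hx)
    have e := h1 y
    rw [ret, this] at e
    exact e.symm
  have h3 : ∀ y, y ≠ y₁ → d y = 0 := by
    intro y hy
    have hg : Good C (Finsupp.single y 1 + d) y := by
      by_contra h
      exact hy (h2 y h)
    have := good_apply hsep hg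
    simpa using this
  have h4 : d = Finsupp.single y₁ (d y₁) := by
    ext y
    by_cases hy : y = y₁
    · subst hy
      simp
    · rw [h3 y hy, Finsupp.single_eq_of_ne hy]
  obtain ⟨y, hy⟩ := exists_ne y₁
  have hg : Good C (Finsupp.single y 1 + d) y := by
    by_contra h
    exact hy (h2 y h)
  have := hg 0
  have a0 : ∀ u v : Y, Agree C u v 0 := fun u v i hi => absurd hi (Nat.not_lt_zero i)
  rw [h4, map_add, par_single, par_single, if_pos (a0 _ _), if_pos (a0 _ _)] at this
  have h5 : d y₁ = 0 := by simpa using this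
  rw [h4, h5, Finsupp.single_zero]

theorem exists_group [TopologicalSpace Y] [T3Space Y] [TopologicalSpace.SeparableSpace Y]
    (hY : ¬ CompletelyRegularSpace Y) {C : ℕ → Set Y} (hC : ∀ i, IsClopen (C i))
    (hsep : ∀ x y : Y, (∀ i, (x ∈ C i ↔ y ∈ C i)) → x = y) :
    ∃ _ : TopologicalSpace (Y →₀ ZMod 2),
      (∀ a : Y →₀ ZMod 2, Continuous fun x => a + x) ∧ T3Space (Y →₀ ZMod 2) ∧
      TopologicalSpace.SeparableSpace (Y →₀ ZMod 2) ∧
      ¬ CompletelyRegularSpace (Y →₀ ZMod 2) := by
  classical
  have : Nontrivial Y := by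
    by_contra h
    rw [not_nontrivial_iff_subsingleton] at h
    exact hY inferInstance
  let Φ : (Y →₀ ZMod 2) → ((Y →₀ ZMod 2) → Y) := fun g h => ret C (g + h)
  let t : TopologicalSpace (Y →₀ ZMod 2) := TopologicalSpace.induced Φ inferInstance
  have hΦ : IsEmbedding Φ := ⟨⟨rfl⟩, ret_translates_injective hsep⟩
  have hadd : ∀ a : Y →₀ ZMod 2, Continuous fun x => a + x := by
    intro a
    rw [hΦ.isInducing.continuous_iff, continuous_pi_iff]
    intro h
    have : (fun x => (Φ ∘ fun x => a + x) x h) = fun x => Φ x (a + h) := by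
      funext x
      simp only [Φ, Function.comp]
      congr 1
      abel
    rw [this]
    exact (continuous_apply (a + h)).comp hΦ.continuous
  have hs : Continuous fun y : Y => (Finsupp.single y 1 : Y →₀ ZMod 2) := by
    rw [hΦ.isInducing.continuous_iff, continuous_pi_iff]
    intro h
    exact continuous_ret_single hC hsep h
  refine ⟨t, hadd, hΦ.t3Space, ?_, ?_⟩
  · obtain ⟨D, hDc, hDd⟩ := TopologicalSpace.exists_countable_dense Y
    let S : AddSubmonoid (Y →₀ ZMod 2) :=
      AddMonoidHom.mrange (Finsupp.mapDomain.addMonoidHom (Subtype.val : D → Y))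
    have hSc : (S : Set (Y →₀ ZMod 2)).Countable := by
      have : Countable D := hDc.to_subtype
      exact Set.countable_range _
    refine ⟨⟨S, hSc, ?_⟩⟩
    have hcl : ∀ a ∈ closure (S : Set (Y →₀ ZMod 2)), ∀ b ∈ closure (S : Set (Y →₀ ZMod 2)),
        a + b ∈ closure (S : Set (Y →₀ ZMod 2)) := by
      intro a ha b hb
      have h1 : ∀ s ∈ (S : Set (Y →₀ ZMod 2)), a + s ∈ closure (S : Set (Y →₀ ZMod 2)) := by
        intro s hs
        have : MapsTo (fun x => s + x) (S : Set (Y →₀ ZMod 2)) S := fun x hx => S.add_mem hs hx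
        have := this.closure (hadd s) ha
        simpa [add_comm] using this
      have : MapsTo (fun x => a + x) (S : Set (Y →₀ ZMod 2)) (closure S) := h1
      simpa using this.closure (hadd a) hb
    intro g
    induction g using Finsupp.induction_linear with
    | zero => exact subset_closure S.zero_mem
    | add f g hf hg => exact hcl f hf g hg
    | single y c =>
      have hc : c = 0 ∨ c = 1 := by
        revert c
        decide
      rcases hc with rfl | rfl
      · rw [Finsupp.single_zero]
        exact subset_closure S.zero_mem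
      · have : MapsTo (fun y : Y => (Finsupp.single y 1 : Y →₀ ZMod 2)) D S :=
          fun y hy => ⟨Finsupp.single ⟨y, hy⟩ 1, by simp⟩
        exact this.closure hs (hDd y)
  · intro hG
    apply hY
    have hr : Continuous fun g : Y →₀ ZMod 2 => Φ g 0 :=
      (continuous_apply 0).comp hΦ.continuous
    have hcomp : (fun g : Y →₀ ZMod 2 => Φ g 0) ∘
        (fun y : Y => (Finsupp.single y 1 : Y →₀ ZMod 2)) = id := by
      funext y
      simp only [Φ, Function.comp, add_zero, id]
      exact ret_eq hsep (good_single C y)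
    have : IsInducing fun y : Y => (Finsupp.single y 1 : Y →₀ ZMod 2) :=
      IsInducing.of_comp hs hr (hcomp ▸ IsInducing.id)
    exact this.completelyRegularSpace

end Pool.Agent.Lib.MP_e6ac2b_gt
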