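import Mathlib

/-!
A separable regular space that is not completely regular and whose points are separated by a
sequence of clopen sets.
-/

set_option autoImplicit false

open Filter Topology Set

namespace Pool.Agent.Lib.MP_e6ac2b_gt

/-- The lower limit of the sequence `x` is `n`. -/
def Rk (n : ℕ) (x : ℕ → ℕ) : Prop := (∀ᶠ k in atTop, n ≤ x k) ∧ ∃ᶠ k in atTop, x k = n

lemma Rk.unique {n m : ℕ} {x : ℕ → ℕ} (hn : Rk n x) (hm : Rk m x) : n = m := by
  obtain ⟨k, hk1, hk2⟩ := (hm.2.and_eventually hn.1).exists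
  obtain ⟨l, hl1, hl2⟩ := (hn.2.and_eventually hm.1).exists
  omega

/-- The first `k` terms of a sequence. -/
def res (x : ℕ → ℕ) (k : ℕ) : List ℕ := (List.range k).map x

lemma res_length (x : ℕ → ℕ) (k : ℕ) : (res x k).length = k := by simp [res]

lemma res_get (x : ℕ → ℕ) {k i : ℕ} (h : i < k) : (res x k)[i]? = some (x i) := by
  simp [res, List.getElem?_range h]

lemma res_congr {x y : ℕ → ℕ} {k : ℕ} (h : ∀ i < k, x i = y i) : res x k = res y k := by
  apply List.map_congr_left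
  intro i hi
  exact h i (List.mem_range.1 hi)

/-- Points: isolated nodes, branches, and one point on top. -/
inductive Pt : Type
  | node (j n : ℕ) (s : List ℕ) : Pt
  | br (j n : ℕ) (x : ℕ → ℕ) (h : Rk n x) : Pt
  | top : Pt

/-- Basic neighbourhoods of the top point. -/
def U (m : ℕ) : Set Pt
  | .node j n _ => m ≤ j ∧ m ≤ n
  | .br j n _ _ => m ≤ j ∧ m + 1 ≤ n
  | .top => True

lemma U_anti {m l : ℕ} (h : m ≤ l) : U l ⊆ U m := by
  intro y hy
  cases y with
  | node j n s => exact ⟨le_trans h hy.1, le_trans h hy.2⟩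
  | br j n x hx => exact ⟨le_trans h hy.1, le_trans (Nat.succ_le_succ h) hy.2⟩
  | top => trivial

instance : TopologicalSpace Pt where
  IsOpen V := (∀ j n x h, Pt.br j n x h ∈ V →
      ∀ᶠ k in atTop, Pt.node j n (res x k) ∈ V ∧ Pt.node j (n - 1) (res x k) ∈ V) ∧
    (Pt.top ∈ V → ∃ m, U m ⊆ V)
  isOpen_univ := ⟨fun _ _ _ _ _ => Eventually.of_forall fun _ => ⟨trivial, trivial⟩,
    fun _ => ⟨0, subset_univ _⟩⟩
  isOpen_inter := by
    rintro s t ⟨hs1, hs2⟩ ⟨ht1, ht2⟩
    refine ⟨fun j n x h hx => ?_, fun hx => ?_⟩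
    · filter_upwards [hs1 j n x h hx.1, ht1 j n x h hx.2] with k h1 h2
      exact ⟨⟨h1.1, h2.1⟩, ⟨h1.2, h2.2⟩⟩
    · obtain ⟨m, hm⟩ := hs2 hx.1
      obtain ⟨l, hl⟩ := ht2 hx.2
      exact ⟨max m l, subset_inter ((U_anti (le_max_left _ _)).trans hm)
        ((U_anti (le_max_right _ _)).trans hl)⟩
  isOpen_sUnion := by
    intro S hS
    refine ⟨fun j n x h hx => ?_, fun hx => ?_⟩
    · obtain ⟨t, ht, hxt⟩ := hx
      filter_upwards [(hS t ht).1 j n x h hxt] with k h1
      exact ⟨⟨t, ht, h1.1⟩, ⟨t, ht, h1.2⟩⟩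
    · obtain ⟨t, ht, hxt⟩ := hx
      obtain ⟨m, hm⟩ := (hS t ht).2 hxt
      exact ⟨m, hm.trans (subset_sUnion_of_mem ht)⟩

lemma isOpen_iff (V : Set Pt) : IsOpen V ↔ (∀ j n x h, Pt.br j n x h ∈ V →
      ∀ᶠ k in atTop, Pt.node j n (res x k) ∈ V ∧ Pt.node j (n - 1) (res x k) ∈ V) ∧
    (Pt.top ∈ V → ∃ m, U m ⊆ V) := Iff.rfl

lemma isOpen_U (m : ℕ) : IsOpen (U m) := by
  refine ⟨fun j n x h hx => Eventually.of_forall fun k => ?_, fun _ => ⟨m, Subset.rfl⟩⟩
  have h1 : m ≤ j := hx.1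
  have h2 : m + 1 ≤ n := hx.2
  exact ⟨⟨h1, by omega⟩, ⟨h1, by omega⟩⟩

lemma tendsto_node (j n : ℕ) (x : ℕ → ℕ) (h : Rk n x) :
    Tendsto (fun k => Pt.node j n (res x k)) atTop (𝓝 (Pt.br j n x h)) := by
  rw [tendsto_nhds]
  intro V hV hx
  filter_upwards [hV.1 j n x h hx] with k hk
  exact hk.1

lemma tendsto_node' (j n : ℕ) (x : ℕ → ℕ) (h : Rk (n + 1) x) :
    Tendsto (fun k => Pt.node j n (res x k)) atTop (𝓝 (Pt.br j (n + 1) x h)) := by
  rw [tendsto_nhds]
  intro V hV hx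
  filter_upwards [hV.1 j (n + 1) x h hx] with k hk
  exact hk.2

lemma isClopen_node (j n : ℕ) (s : List ℕ) : IsClopen ({Pt.node j n s} : Set Pt) := by
  constructor
  · rw [← isOpen_compl_iff]
    refine ⟨fun j' n' x h _ => ?_, fun _ => ⟨j + 1, fun y hy hy' => ?_⟩⟩
    · filter_upwards [eventually_gt_atTop s.length] with k hk
      have : res x k ≠ s := by
        intro h
        rw [← h, res_length] at hk
        exact lt_irrefl _ hk
      simp [this]
    · rw [mem_singleton_iff] at hy'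
      subst hy'
      exact absurd hy.1 (Nat.not_succ_le_self j)
  · refine ⟨fun j' n' x h hx => ?_, fun hx => ?_⟩
    · simp at hx
    · simp at hx

/-- Points of block `j` whose `i`-th letter is `c`. -/
def Cyl (j i c : ℕ) : Set Pt
  | .node j' _ s => j' = j ∧ s[i]? = some c
  | .br j' _ x _ => j' = j ∧ x i = c
  | .top => False

lemma isClopen_Cyl (j i c : ℕ) : IsClopen (Cyl j i c) := by
  constructor
  · rw [← isOpen_compl_iff]
    refine ⟨fun j' n' x h hx => ?_, fun _ => ⟨j + 1, fun y hy hy' => ?_⟩⟩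
    · filter_upwards [eventually_gt_atTop i] with k hk
      have : ¬ (j' = j ∧ (res x k)[i]? = some c) := by
        rw [res_get x hk]
        intro h'
        exact hx ⟨h'.1, by simpa using h'.2⟩
      exact ⟨this, this⟩
    · cases y with
      | node j' n s =>
        have h1 : j + 1 ≤ j' := hy.1
        have h2 : j' = j := hy'.1
        omega
      | br j' n x h =>
        have h1 : j + 1 ≤ j' := hy.1
        have h2 : j' = j := hy'.1
        omega
      | top => exact hy'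
  · refine ⟨fun j' n' x h hx => ?_, fun hx => hx.elim⟩
    filter_upwards [eventually_gt_atTop i] with k hk
    have : j' = j ∧ (res x k)[i]? = some c := by
      rw [res_get x hk]
      exact ⟨hx.1, by rw [hx.2]⟩
    exact ⟨this, this⟩

lemma exists_clopen_seq : ∃ C : ℕ → Set Pt, (∀ i, IsClopen (C i)) ∧
    ∀ x y : Pt, (∀ i, (x ∈ C i ↔ y ∈ C i)) → x = y := by
  let D : (ℕ × ℕ × List ℕ) ⊕ (ℕ × ℕ × ℕ) → Set Pt := fun p =>
    match p with
    | .inl q => {Pt.node q.1 q.2.1 q.2.2}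
    | .inr q => Cyl q.1 q.2.1 q.2.2
  obtain ⟨e, he⟩ := exists_surjective_nat ((ℕ × ℕ × List ℕ) ⊕ (ℕ × ℕ × ℕ))
  refine ⟨fun i => D (e i), fun i => ?_, fun x y hxy => ?_⟩
  · show IsClopen (D (e i))
    rcases e i with q | q
    · exact isClopen_node _ _ _
    · exact isClopen_Cyl _ _ _
  · have h : ∀ p, (x ∈ D p ↔ y ∈ D p) := fun p => by
      obtain ⟨i, rfl⟩ := he p
      exact hxy i
    have h1 : ∀ j n s, (x = Pt.node j n s ↔ y = Pt.node j n s) := fun j n s =>
      h (.inl (j, n, s))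
    have h2 : ∀ j i c, (x ∈ Cyl j i c ↔ y ∈ Cyl j i c) := fun j i c => h (.inr (j, i, c))
    cases x with
    | node j n s => exact ((h1 j n s).1 rfl).symm
    | br j n x hx =>
      cases y with
      | node j' n' s => exact (h1 j' n' s).2 rfl
      | br j' n' x' hx' =>
        have h3 : ∀ i, j' = j ∧ x' i = x i := fun i => (h2 j i (x i)).1 ⟨rfl, rfl⟩
        have h4 : x' = x := funext fun i => (h3 i).2
        have h5 : j' = j := (h3 0).1
        subst h4 h5
        have h6 : n = n' := hx.unique hx'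
        subst h6
        rfl
      | top => exact ((h2 j 0 (x 0)).1 ⟨rfl, rfl⟩).elim
    | top =>
      cases y with
      | node j' n' s => exact (h1 j' n' s).2 rfl
      | br j' n' x' hx' => exact ((h2 j' 0 (x' 0)).2 ⟨rfl, rfl⟩).elim
      | top => rfl

instance : T0Space Pt := by
  obtain ⟨C, hC, hsep⟩ := exists_clopen_seq
  refine ⟨fun x y hxy => hsep x y fun i => ?_⟩
  exact hxy.mem_open_iff (hC i).isOpen

/-- Basic clopen neighbourhoods of a branch. -/
def Nb (j n : ℕ) (x : ℕ → ℕ) (K : ℕ) : Set Pt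
  | .node j' n' s => j' = j ∧ (n' = n ∨ n' = n - 1) ∧ ∃ k, K ≤ k ∧ s = res x k
  | .br j' _ x' _ => j' = j ∧ x' = x
  | .top => False

lemma isOpen_Nb (j n : ℕ) (x : ℕ → ℕ) (h : Rk n x) (K : ℕ) : IsOpen (Nb j n x K) := by
  refine ⟨fun j' n' x' h' hx => ?_, fun hx => hx.elim⟩
  obtain ⟨rfl, rfl⟩ := hx
  have : n' = n := h'.unique h
  subst this
  filter_upwards [eventually_ge_atTop K] with k hk
  exact ⟨⟨rfl, Or.inl rfl, k, hk, rfl⟩, ⟨rfl, Or.inr rfl, k, hk, rfl⟩⟩

lemma isClosed_Nb (j n : ℕ) (x : ℕ → ℕ) (K : ℕ) : IsClosed (Nb j n x K) := by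
  rw [← isOpen_compl_iff]
  refine ⟨fun j' n' x' h' hx => ?_, fun _ => ⟨j + 1, fun y hy hy' => ?_⟩⟩
  · by_cases hj : j' = j
    · have hne : x' ≠ x := fun h => hx ⟨hj, h⟩
      obtain ⟨i, hi⟩ := Function.ne_iff.1 hne
      filter_upwards [eventually_gt_atTop i] with k hk
      have : ¬ ∃ l, K ≤ l ∧ res x' k = res x l := by
        rintro ⟨l, -, hl⟩
        have h1 : k = l := by rw [← res_length x' k, hl, res_length]
        subst h1
        have h2 := res_get x' hk
        rw [hl, res_get x hk] at h2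
        exact hi (Option.some.inj h2).symm
      exact ⟨fun h => this h.2.2, fun h => this h.2.2⟩
    · exact Eventually.of_forall fun k => ⟨fun h => hj h.1, fun h => hj h.1⟩
  · cases y with
    | node j' n s =>
      have h1 : j + 1 ≤ j' := hy.1
      have h2 : j' = j := hy'.1
      omega
    | br j' n x h =>
      have h1 : j + 1 ≤ j' := hy.1
      have h2 : j' = j := hy'.1
      omega
    | top => exact hy'

/-- Closed neighbourhoods of the top point. -/
def Ubar (m : ℕ) : Set Pt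
  | .node j n _ => m ≤ j ∧ m ≤ n
  | .br j n _ _ => m ≤ j ∧ m ≤ n
  | .top => True

lemma isClosed_Ubar (m : ℕ) : IsClosed (Ubar m) := by
  rw [← isOpen_compl_iff]
  refine ⟨fun j n x h hx => Eventually.of_forall fun k => ?_, fun hx => (hx trivial).elim⟩
  have h1 : ¬ (m ≤ j ∧ m ≤ n) := hx
  have h2 : ¬ (m ≤ j ∧ m ≤ n - 1) := by omega
  exact ⟨h1, h2⟩

instance : RegularSpace Pt := by
  refine RegularSpace.of_exists_mem_nhds_isClosed_subset fun y s hs => ?_
  obtain ⟨V, hVs, hV, hyV⟩ := mem_nhds_iff.1 hs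
  cases y with
  | node j n l =>
    refine ⟨{Pt.node j n l}, (isClopen_node j n l).isOpen.mem_nhds rfl,
      (isClopen_node j n l).isClosed, ?_⟩
    exact singleton_subset_iff.2 (hVs hyV)
  | br j n x h =>
    obtain ⟨K, hK⟩ := eventually_atTop.1 (hV.1 j n x h hyV)
    refine ⟨Nb j n x K, (isOpen_Nb j n x h K).mem_nhds ⟨rfl, rfl⟩, isClosed_Nb j n x K, ?_⟩
    intro z hz
    apply hVs
    cases z with
    | node j' n' s =>
      obtain ⟨rfl, hn, k, hk, rfl⟩ := hz
      rcases hn with rfl | rfl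
      · exact (hK k hk).1
      · exact (hK k hk).2
    | br j' n' x' h' =>
      obtain ⟨rfl, rfl⟩ := hz
      have : n' = n := h'.unique h
      subst this
      exact hyV
    | top => exact hz.elim
  | top =>
    obtain ⟨m, hm⟩ := hV.2 hyV
    refine ⟨Ubar (m + 1), mem_of_superset ((isOpen_U (m + 1)).mem_nhds trivial) ?_,
      isClosed_Ubar _, ?_⟩
    · intro z hz
      cases z with
      | node j n s => exact hz
      | br j n x h => exact ⟨hz.1, le_trans (Nat.le_succ _) hz.2⟩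
      | top => trivial
    · intro z hz
      apply hVs
      apply hm
      cases z with
      | node j n s => exact ⟨le_trans (Nat.le_succ _) hz.1, le_trans (Nat.le_succ _) hz.2⟩
      | br j n x h => exact ⟨le_trans (Nat.le_succ _) hz.1, hz.2⟩
      | top => trivial

instance : TopologicalSpace.SeparableSpace Pt := by
  refine ⟨⟨range fun p : ℕ × ℕ × List ℕ => Pt.node p.1 p.2.1 p.2.2, countable_range _, ?_⟩⟩
  rw [dense_iff_inter_open]
  rintro V hV ⟨y, hy⟩
  cases y with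
  | node j n s => exact ⟨_, hy, ⟨(j, n, s), rfl⟩⟩
  | br j n x h =>
    obtain ⟨k, hk⟩ := (hV.1 j n x h hy).exists
    exact ⟨_, hk.1, ⟨(j, n, res x k), rfl⟩⟩
  | top =>
    obtain ⟨m, hm⟩ := hV.2 hy
    exact ⟨Pt.node m m [], hm ⟨le_rfl, le_rfl⟩, ⟨(m, m, []), rfl⟩⟩

/-- One step up the chain. -/
lemma step (f : Pt → ℝ) (hf : Continuous f) (j n k : ℕ) (x₀ : ℕ → ℕ) {c c' : ℝ} (hc : c' < c)
    (hP : ∀ x (h : Rk n x), (∀ i < k, x i = x₀ i) → (∀ i, k ≤ i → n ≤ x i) →
      c ≤ f (Pt.br j n x h)) :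
    ∃ k' : ℕ, ∃ x₁ : ℕ → ℕ, ∀ x (h : Rk (n + 1) x), (∀ i < k', x i = x₁ i) →
      (∀ i, k' ≤ i → n + 1 ≤ x i) → c' ≤ f (Pt.br j (n + 1) x h) := by
  by_contra hcon
  push Not at hcon
  have hstep : ∀ p : ℕ × (ℕ → ℕ), ∃ q : ℕ × (ℕ → ℕ), p.1 < q.1 ∧ (∀ t < p.1, q.2 t = p.2 t) ∧
      q.2 p.1 = n ∧ (∀ t, p.1 < t → n ≤ q.2 t) ∧ f (Pt.node j n (res q.2 q.1)) < c' := by
    rintro ⟨a, u⟩
    obtain ⟨x, h, h1, h2, h3⟩ := hcon (a + 1) (Function.update u a n)
    have h4 : ∀ᶠ b in atTop, f (Pt.node j n (res x b)) < c' :=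
      ((hf.tendsto _).comp (tendsto_node' j n x h)).eventually (gt_mem_nhds h3)
    obtain ⟨b, hb1, hb2⟩ := (h4.and (eventually_gt_atTop a)).exists
    refine ⟨(b, x), hb2, fun t ht => ?_, ?_, fun t ht => ?_, hb1⟩
    · have ht' : t < a := ht
      show x t = u t
      rw [h1 t (by omega), Function.update_of_ne (by omega)]
    · show x a = n
      rw [h1 a (by omega), Function.update_self]
    · have ht' : a < t := ht
      have := h2 t (by omega)
      show n ≤ x t
      omega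
  choose g hg1 hg2 hg3 hg4 hg5 using hstep
  let q : ℕ → ℕ × (ℕ → ℕ) := fun i => g^[i] (k, x₀)
  have hq : ∀ i, q (i + 1) = g (q i) := fun i => Function.iterate_succ_apply' g i _
  have hq0 : q 0 = (k, x₀) := rfl
  have hmono : StrictMono fun i => (q i).1 := strictMono_nat_of_lt_succ fun i => by
    rw [hq]
    exact hg1 _
  have hle : ∀ i, i ≤ (q i).1 := fun i => hmono.le_apply
  have hstab : ∀ i l, i ≤ l → ∀ t < (q i).1, (q l).2 t = (q i).2 t := by
    intro i l hil t ht
    induction l, hil using Nat.le_induction with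
    | base => rfl
    | succ l hil ih =>
      rw [hq, hg2 _ t (lt_of_lt_of_le ht (hmono.monotone hil)), ih]
  let y : ℕ → ℕ := fun t => (q (t + 1)).2 t
  have hy : ∀ i, ∀ t < (q i).1, y t = (q i).2 t := by
    intro i t ht
    rcases le_total i (t + 1) with h | h
    · exact hstab i (t + 1) h t ht
    · exact (hstab (t + 1) i h t (lt_of_lt_of_le (Nat.lt_succ_self t) (hle _))).symm
  have hge : ∀ i t, k ≤ t → n ≤ (q (i + 1)).2 t := by
    intro i
    induction i with
    | zero =>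
      intro t ht
      rw [hq]
      rcases ht.eq_or_lt with h | h
      · subst h
        exact (hg3 (q 0)).ge
      · exact hg4 _ t h
    | succ i ih =>
      intro t ht
      rw [hq (i + 1)]
      rcases lt_trichotomy t (q (i + 1)).1 with h | h | h
      · rw [hg2 _ t h]
        exact ih t ht
      · rw [h]
        exact (hg3 _).ge
      · exact hg4 _ t h
  have hyge : ∀ t, k ≤ t → n ≤ y t := fun t ht => hge t t ht
  have hyn : ∀ i, y (q i).1 = n := by
    intro i
    rw [hy (i + 1) _ (hmono (Nat.lt_succ_self i)), hq]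
    exact hg3 _
  have hRk : Rk n y := by
    refine ⟨eventually_atTop.2 ⟨k, hyge⟩, frequently_atTop.2 fun i => ⟨(q i).1, hle i, hyn i⟩⟩
  have h1 := hP y hRk (fun i hi => hy 0 i hi) hyge
  have h2 : f (Pt.br j n y hRk) ≤ c' := by
    refine le_of_tendsto_of_frequently ((hf.tendsto _).comp (tendsto_node j n y hRk)) ?_
    refine frequently_atTop.2 fun i => ⟨(q (i + 1)).1, le_trans (Nat.le_succ i) (hle _), ?_⟩
    have : res y (q (i + 1)).1 = res (q (i + 1)).2 (q (i + 1)).1 := res_congr (hy (i + 1))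
    simp only [Function.comp]
    rw [this, hq]
    exact (hg5 _).le
  linarith

theorem not_completelyRegular : ¬ CompletelyRegularSpace Pt := by
  intro hCR
  obtain ⟨F, hF, hF0, hF1⟩ := hCR.completely_regular Pt.top (U 0)ᶜ
    (isOpen_U 0).isClosed_compl (fun h => h trivial)
  let f : Pt → ℝ := fun y => (F y : ℝ)
  have hf : Continuous f := continuous_subtype_val.comp hF
  have hopen : IsOpen {y | f y < 1 / 2} := isOpen_lt hf continuous_const
  obtain ⟨m, hm⟩ := hopen.2 (by simp [f, hF0])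
  have chain : ∀ n : ℕ, ∃ k : ℕ, ∃ x₀ : ℕ → ℕ, ∀ x (h : Rk n x), (∀ i < k, x i = x₀ i) →
      (∀ i, k ≤ i → n ≤ x i) → 1 / 2 + (1 / 2 : ℝ) ^ (n + 1) ≤ f (Pt.br m n x h) := by
    intro n
    induction n with
    | zero =>
      refine ⟨0, fun _ => 0, fun x h _ _ => ?_⟩
      have : F (Pt.br m 0 x h) = 1 := hF1 (fun hh => absurd hh.2 (by omega))
      simp only [f, this]
      norm_num
    | succ n ih =>
      obtain ⟨k, x₀, hP⟩ := ih
      refine step f hf m n k x₀ ?_ hP
      have : (0 : ℝ) < (1 / 2) ^ (n + 1) := by positivity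
      rw [pow_succ (1 / 2 : ℝ) (n + 1)]
      linarith
  obtain ⟨k, x₀, hP⟩ := chain (m + 1)
  let x : ℕ → ℕ := fun i => if i < k then x₀ i else m + 1
  have hx : ∀ i, k ≤ i → x i = m + 1 := fun i hi => if_neg (not_lt.2 hi)
  have hRk : Rk (m + 1) x :=
    ⟨eventually_atTop.2 ⟨k, fun i hi => (hx i hi).ge⟩,
      (eventually_atTop.2 ⟨k, hx⟩).frequently⟩
  have h1 := hP x hRk (fun i hi => if_pos hi) (fun i hi => (hx i hi).ge)
  have h2 : f (Pt.br m (m + 1) x hRk) < 1 / 2 := hm (show Pt.br m (m + 1) x hRk ∈ U m from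
    ⟨le_rfl, le_rfl⟩)
  have : (0 : ℝ) < (1 / 2) ^ (m + 1 + 1) := by positivity
  linarith

end Pool.Agent.Lib.MP_e6ac2b_gt
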