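import Pool.Agent.Lib.MP_e6ac2b_gt.BoolGroup
import Pool.Agent.Lib.MP_e6ac2b_gt.Space

/-!
Levels, signs and tests on one block.
-/

set_option autoImplicit false

open Filter Topology Set

namespace Pool.Agent.Lib.MP_e6ac2b_gt.Const

/-- One block. -/
abbrev B : Type := Pt →₀ ZMod 2

/-- The separating sequence of clopen sets. -/
noncomputable def CC : ℕ → Set Pt := exists_clopen_seq.choose

lemma hC (i : ℕ) : IsClopen (CC i) := exists_clopen_seq.choose_spec.1 i

lemma hsep (x y : Pt) (h : ∀ i, (x ∈ CC i ↔ y ∈ CC i)) : x = y :=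
  exists_clopen_seq.choose_spec.2 x y h

instance : Nonempty Pt := ⟨Pt.top⟩

/-- The position on the digital line. -/
def pos : Pt → ℤ
  | .node j n _ => if j = 0 then 2 * n else 0
  | .br j n _ _ => if j = 0 then 2 * n - 1 else 0
  | .top => 0

/-- `q` lies in the smallest neighbourhood of `p` on the digital line. -/
def Near (p q : ℤ) : Prop := (p % 2 = 0 → q = p) ∧ p - 1 ≤ q ∧ q ≤ p + 1

/-- The points outside the first part. -/
def off : Set Pt
  | .node j _ _ => j ≠ 0
  | .br j _ _ _ => j ≠ 0
  | .top => True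

lemma isClopen_off : IsClopen off := by
  constructor
  · rw [← isOpen_compl_iff]
    exact ⟨fun j n x h hx => Eventually.of_forall fun k => ⟨hx, hx⟩, fun hx => (hx trivial).elim⟩
  · refine ⟨fun j n x h hx => Eventually.of_forall fun k => ⟨hx, hx⟩, fun _ => ⟨1, fun y hy => ?_⟩⟩
    cases y with
    | node j n s =>
      have h1 : 1 ≤ j := hy.1
      show j ≠ 0
      omega
    | br j n x h =>
      have h1 : 1 ≤ j := hy.1
      show j ≠ 0
      omega
    | top => trivial

lemma pos_loc (y : Pt) : ∃ V, IsClopen V ∧ y ∈ V ∧ ∀ z ∈ V, Near (pos y) (pos z) := by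
  cases y with
  | node j n s =>
    refine ⟨_, isClopen_node j n s, rfl, fun z hz => ?_⟩
    rw [mem_singleton_iff] at hz
    subst hz
    exact ⟨fun _ => rfl, by omega, by omega⟩
  | br j n x h =>
    refine ⟨Nb j n x 0, ⟨isClosed_Nb j n x 0, isOpen_Nb j n x h 0⟩, ⟨rfl, rfl⟩, fun z hz => ?_⟩
    cases z with
    | node j' n' s =>
      obtain ⟨rfl, hn, -⟩ := hz
      simp only [pos, Near]
      split_ifs
      · omega
      · omega
    | br j' n' x' h' =>
      obtain ⟨rfl, rfl⟩ := hz
      have : n' = n := h'.unique h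
      subst this
      exact ⟨fun _ => rfl, by omega, by omega⟩
    | top => exact hz.elim
  | top =>
    refine ⟨off, isClopen_off, trivial, fun z hz => ?_⟩
    have : pos z = 0 := by
      cases z with
      | node j n s => exact if_neg hz
      | br j n x h => exact if_neg hz
      | top => rfl
    rw [this]
    exact ⟨fun _ => rfl, by decide, by decide⟩

/-- The total parity. -/
noncomputable def tot : B →ₗ[ZMod 2] ZMod 2 := par CC Pt.top 0

lemma tot_single (y : Pt) : tot (Finsupp.single y 1) = 1 := by
  have : Agree CC y Pt.top 0 := fun i hi => absurd hi (Nat.not_lt_zero i)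
  rw [tot, par_single, if_pos this]

/-- The level of an odd configuration in block `n`. -/
noncomputable def val (n : ℕ) (b : B) : ℤ := pos (ret CC b) - 2 * n

lemma val_single (n : ℕ) (y : Pt) : val n (Finsupp.single y 1) = pos y - 2 * n := by
  rw [val, ret_eq hsep (good_single CC y)]

open Classical in
/-- The sign. -/
noncomputable def sg (n : ℕ) (b : B) : ZMod 2 := if tot b = 1 ∧ 0 < val n b then 1 else 0

/-- The level is far from zero. -/
def Big (k n : ℕ) (b : B) : Prop := tot b = 1 → (2 * k + 2 ≤ val n b ∨ val n b ≤ -(2 * k + 2))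

lemma sg_even {n : ℕ} {b : B} (h : tot b = 0) : sg n b = 0 :=
  if_neg fun h' => absurd (h.symm.trans h'.1) (by decide)

lemma big_even {k n : ℕ} {b : B} (h : tot b = 0) : Big k n b :=
  fun h' => absurd (h.symm.trans h') (by decide)

lemma sg_zero (n : ℕ) : sg n 0 = 0 := sg_even (map_zero _)

lemma big_zero (k n : ℕ) : Big k n 0 := big_even (map_zero _)

lemma Big.mono {k l n : ℕ} {b : B} (h : Big l n b) (hk : k ≤ l) : Big k n b := fun h' => by
  have := h h'
  omega

/-- Sets of configurations that are clopen along every line. -/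
def Test (W : Set B) : Prop := ∀ h : B, IsClopen {y : Pt | Finsupp.single y 1 + h ∈ W}

lemma test_univ : Test univ := fun _ => isClopen_univ

lemma Test.inter {W W' : Set B} (h : Test W) (h' : Test W') : Test (W ∩ W') :=
  fun g => (h g).inter (h' g)

lemma Test.compl {W : Set B} (h : Test W) : Test Wᶜ := fun g => (h g).compl

lemma Test.shift {W : Set B} (h : Test W) (u : B) : Test {w | u + w ∈ W} := fun g => by
  have := h (u + g)
  simpa only [mem_ofPred_eq, add_left_comm u] using this

lemma Test.same {W : Set B} (h : Test W) (u : B) : Test {w | u + w ∈ W ↔ u ∈ W} := by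
  by_cases hu : u ∈ W
  · simpa only [hu, iff_true] using h.shift u
  · simpa only [hu, iff_false, mem_compl_iff] using h.compl.shift u

lemma isClopen_agree (x : Pt) (k : ℕ) : IsClopen {y | Agree CC y x k} := by
  refine ⟨?_, isOpen_agree hC x k⟩
  rw [← isOpen_compl_iff, isOpen_iff_mem_nhds]
  intro y hy
  filter_upwards [(isOpen_agree hC y k).mem_nhds (Agree.refl CC y k)] with z hz h
  exact hy (Agree.trans (Agree.symm hz) h)

lemma test_par (x : Pt) (k : ℕ) : Test {w | par CC x k w = 0} := fun h => by
  classical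
  have e : ∀ c : ZMod 2, c = 0 ∨ c = 1 := by decide
  rcases e (par CC x k h) with h0 | h0
  · have : {y : Pt | Finsupp.single y 1 + h ∈ {w | par CC x k w = 0}} = {y | Agree CC y x k}ᶜ := by
      ext y
      simp only [mem_ofPred_eq, map_add, par_single, h0, add_zero, mem_compl_iff]
      split_ifs with h1 <;> simp [h1]
    rw [this]
    exact (isClopen_agree x k).compl
  · have : {y : Pt | Finsupp.single y 1 + h ∈ {w | par CC x k w = 0}} = {y | Agree CC y x k} := by
      ext y
      simp only [mem_ofPred_eq, map_add, par_single, h0]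
      split_ifs with h1
      · simp only [h1, iff_true]
        decide
      · simp [h1]
    rw [this]
    exact isClopen_agree x k

lemma test_ret {V : Set Pt} (hV : IsClopen V) : Test {w | ret CC w ∈ V} :=
  fun h => hV.preimage (continuous_ret_single hC hsep h)

lemma exists_test_ne {u : B} (hu : u ≠ 0) : ∃ W, Test W ∧ 0 ∈ W ∧ u ∉ W := by
  classical
  obtain ⟨y, hy⟩ := Finsupp.ne_iff.1 hu
  obtain ⟨N, hN⟩ := exists_depth hsep u y
  refine ⟨_, test_par y N, map_zero _, fun h => hy ?_⟩
  have := hN y (Agree.refl CC y N) N le_rfl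
  rw [par_single, if_pos (Agree.refl CC y N)] at this
  exact this.symm.trans h

/-- Small perturbations of a configuration in one block. -/
lemma exists_test (u : B) : ∃ W, Test W ∧ 0 ∈ W ∧ (u = 0 → W = univ) ∧
    ∀ w ∈ W, ∀ k n, (Big k n u → Big k n w → Big k n (u + w) ∧ sg n (u + w) = sg n u + sg n w) ∧
      (Big (k + 1) n (u + w) → Big k n u) := by
  classical
  by_cases hu : u = 0
  · subst hu
    refine ⟨univ, test_univ, trivial, fun _ => rfl, fun w _ k n => ⟨fun _ h => ?_, fun _ => ?_⟩⟩
    · rw [zero_add, sg_zero, zero_add]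
      exact ⟨h, rfl⟩
    · exact big_zero k n
  obtain ⟨V, h1, h2, h3⟩ := pos_loc (ret CC u)
  refine ⟨{w | tot w = 0} ∩ {w | u + w ∈ {w | ret CC w ∈ V}},
    (test_par _ _).inter ((test_ret h1).shift u), ⟨map_zero _, by simpa using h2⟩,
    fun h => absurd h hu, fun w hw k n => ?_⟩
  have e : tot (u + w) = tot u := by rw [map_add, hw.1, add_zero]
  obtain ⟨a1, a2, a3⟩ := h3 _ hw.2
  refine ⟨fun hb _ => ⟨fun h => ?_, ?_⟩, fun hb h => ?_⟩
  · have := hb (e ▸ h)
    simp only [val] at this ⊢
    omega
  · rw [sg_even hw.1, add_zero, sg, sg, e]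
    refine if_congr (and_congr_right fun h => ?_) rfl rfl
    have := hb h
    simp only [val] at this ⊢
    omega
  · have := hb (e.trans h)
    simp only [val] at this ⊢
    push_cast at this
    omega

end Pool.Agent.Lib.MP_e6ac2b_gt.Const
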