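import Pool.Agent.Lib.MP_e6ac2b_gt.ConstA

/-!
The triangular bijection and the basic neighbourhoods of zero.
-/

set_option autoImplicit false

open Filter Topology Set

namespace Pool.Agent.Lib.MP_e6ac2b_gt.Const

/-- Finitely supported sequences of blocks. -/
abbrev G : Type := ℕ →₀ B

lemma G_add_self (g : G) : g + g = 0 := by
  ext n : 1
  exact add_self_eq_zero' (g n)

/-- A point placed in a block. -/
noncomputable def io (n : ℕ) (y : Pt) : G := Finsupp.single n (Finsupp.single y 1)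

/-- An enumeration of the nodes of all blocks. -/
noncomputable def en : ℕ → ℕ × ℕ × ℕ × List ℕ := (exists_surjective_nat _).choose

lemma en_surj : Function.Surjective en := (exists_surjective_nat _).choose_spec

/-- A node placed in a block. -/
noncomputable def nd (d : ℕ × ℕ × ℕ × List ℕ) : G := io d.1 (Pt.node d.2.1 d.2.2.1 d.2.2.2)

/-- The target of a block: a node of an earlier block. -/
noncomputable def tg (n : ℕ) : G := if (en n.unpair.1).1 < n then nd (en n.unpair.1) else 0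

lemma tg_apply {n m : ℕ} (h : n ≤ m) : tg n m = 0 := by
  unfold tg
  split_ifs with h1
  · exact Finsupp.single_eq_of_ne (by omega)
  · rfl

lemma exists_tg (d : ℕ × ℕ × ℕ × List ℕ) (M : ℕ) : ∃ n, M ≤ n ∧ tg n = nd d := by
  obtain ⟨a, rfl⟩ := en_surj d
  have := Nat.right_le_pair a (max M ((en a).1 + 1))
  refine ⟨Nat.pair a (max M ((en a).1 + 1)), by omega, ?_⟩
  rw [tg, Nat.unpair_pair, if_pos (by dsimp only; omega)]

/-- The triangular map. -/
noncomputable def Th (x : G) : G := x + x.sum fun n b => sg n b • tg n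

lemma Th_eq (x : G) {A : Finset ℕ} (h : x.support ⊆ A) :
    Th x = x + ∑ n ∈ A, sg n (x n) • tg n := by
  rw [Th, Finsupp.sum_of_support_subset x h _ fun n _ => by rw [sg_zero, zero_smul]]

lemma Th_zero : Th 0 = 0 := by simp [Th]

lemma Th_single (n : ℕ) (b : B) : Th (Finsupp.single n b) = Finsupp.single n b + sg n b • tg n := by
  rw [Th, Finsupp.sum_single_index (by rw [sg_zero, zero_smul])]

lemma Th_add {x y : G} (h : ∀ n, sg n (x n + y n) = sg n (x n) + sg n (y n)) :
    Th (x + y) = Th x + Th y := by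
  classical
  rw [Th_eq (x + y) Finsupp.support_add, Th_eq x Finset.subset_union_left,
    Th_eq y Finset.subset_union_right]
  simp only [Finsupp.add_apply, h, add_smul, Finset.sum_add_distrib]
  abel

lemma Th_tri {x y z : G} (e : Th z = Th x + Th y) (m : ℕ)
    (h : ∀ n, m < n → sg n (z n) = sg n (x n) + sg n (y n)) : z m = x m + y m := by
  classical
  let A := x.support ∪ y.support ∪ z.support
  rw [Th_eq z (A := A) Finset.subset_union_right,
    Th_eq x (A := A) (Finset.subset_union_left.trans Finset.subset_union_left),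
    Th_eq y (A := A) (Finset.subset_union_right.trans Finset.subset_union_left)] at e
  have e1 := DFunLike.congr_fun e m
  simp only [Finsupp.add_apply, Finsupp.finsetSum_apply, Finsupp.smul_apply] at e1
  have e2 : ∑ n ∈ A, sg n (z n) • tg n m =
      ∑ n ∈ A, sg n (x n) • tg n m + ∑ n ∈ A, sg n (y n) • tg n m := by
    rw [← Finset.sum_add_distrib]
    refine Finset.sum_congr rfl fun n _ => ?_
    rcases le_or_gt n m with hn | hn
    · simp [tg_apply hn]
    · rw [h n hn, add_smul]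
  rw [e2] at e1
  refine add_right_cancel (e1.trans ?_)
  abel

lemma down {P : ℕ → Prop} (N : ℕ) (h0 : ∀ n, N ≤ n → P n) (h : ∀ m, (∀ n, m < n → P n) → P m)
    (m : ℕ) : P m := by
  have : ∀ d n, N ≤ n + d → P n := by
    intro d
    induction d with
    | zero => exact h0
    | succ d ih => exact fun n hn => h n fun l hl => ih l (by omega)
  exact this N m (by omega)

lemma exists_bound (x : G) : ∃ N, ∀ n, N ≤ n → x n = 0 := by
  obtain ⟨N, hN⟩ := x.support.bddAbove
  refine ⟨N + 1, fun n hn => ?_⟩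
  by_contra h
  have := hN (Finsupp.mem_support_iff.2 h)
  omega

lemma Th_inj {x z : G} (e : Th z = Th x) : z = x := by
  obtain ⟨N, hN⟩ := exists_bound x
  obtain ⟨M, hM⟩ := exists_bound z
  ext m : 1
  refine down (P := fun n => z n = x n) (max N M)
    (fun n hn => by rw [hN n (by omega), hM n (by omega)]) (fun m h => ?_) m
  have := Th_tri (x := x) (y := 0) (z := z) (by rw [Th_zero, add_zero, e]) m fun n hn => by
    rw [h n hn, Finsupp.zero_apply, sg_zero, add_zero]
  rwa [Finsupp.zero_apply, add_zero] at this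

lemma Th_surj (g : G) : ∃ x, Th x = g := by
  have : ∀ N, ∀ g : G, (∀ n, N ≤ n → g n = 0) → ∃ x : G, (∀ n, N ≤ n → x n = 0) ∧ Th x = g := by
    intro N
    induction N with
    | zero =>
      intro g hg
      refine ⟨0, fun _ _ => rfl, Th_zero.trans ?_⟩
      ext n : 1
      exact (hg n n.zero_le).symm
    | succ N ih =>
      intro g hg
      obtain ⟨x, h1, h2⟩ := ih (g + Th (Finsupp.single N (g N))) fun n hn => by
        rw [Th_single, Finsupp.add_apply, Finsupp.add_apply, Finsupp.smul_apply, tg_apply hn,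
          smul_zero, add_zero]
        rcases hn.eq_or_lt with rfl | hn
        · rw [Finsupp.single_eq_same, add_self_eq_zero']
        · rw [hg n hn, Finsupp.single_eq_of_ne hn.ne', add_zero]
      refine ⟨x + Finsupp.single N (g N), fun n hn => ?_, ?_⟩
      · rw [Finsupp.add_apply, h1 n (by omega), Finsupp.single_eq_of_ne (by omega), add_zero]
      · rw [Th_add, h2, add_assoc, G_add_self, add_zero]
        intro n
        by_cases hn : n = N
        · rw [hn, h1 N le_rfl, sg_zero, zero_add, zero_add]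
        · rw [Finsupp.single_eq_of_ne hn, sg_zero, add_zero, add_zero]
  obtain ⟨N, hN⟩ := exists_bound g
  exact (this N g hN).imp fun _ h => h.2

/-- Admissible families of tests. -/
def Adm (W : ℕ → Set B) : Prop :=
  (∀ n, Test (W n) ∧ 0 ∈ W n) ∧ ∃ N, ∀ n, N ≤ n → W n = univ

/-- The basic neighbourhoods of zero. -/
def UU (k : ℕ) (W : ℕ → Set B) : Set G :=
  {e | ∃ x, Th x = e ∧ ∀ n, Big k n (x n) ∧ x n ∈ W n}

lemma adm_univ : Adm fun _ => univ := ⟨fun _ => ⟨test_univ, trivial⟩, 0, fun _ _ => rfl⟩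

lemma Adm.inter {W W' : ℕ → Set B} (h : Adm W) (h' : Adm W') : Adm fun n => W n ∩ W' n := by
  obtain ⟨h1, N, hN⟩ := h
  obtain ⟨h2, M, hM⟩ := h'
  refine ⟨fun n => ⟨(h1 n).1.inter (h2 n).1, (h1 n).2, (h2 n).2⟩, max N M, fun n hn => ?_⟩
  dsimp only
  rw [hN n (by omega), hM n (by omega), univ_inter]

lemma UU_mono {k l : ℕ} {W W' : ℕ → Set B} (hk : k ≤ l) (h : ∀ n, W' n ⊆ W n) :
    UU l W' ⊆ UU k W := by
  rintro _ ⟨x, rfl, hx⟩
  exact ⟨x, rfl, fun n => ⟨(hx n).1.mono hk, h n (hx n).2⟩⟩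

lemma zero_mem_UU (k : ℕ) {W : ℕ → Set B} (h : Adm W) : 0 ∈ UU k W :=
  ⟨0, Th_zero, fun n => ⟨big_zero k n, (h.1 n).2⟩⟩

/-- The basic neighbourhoods are open, and the closure of the next one lies in the given one. -/
lemma key (k : ℕ) {W : ℕ → Set B} (hW : Adm W) (g : G) : ∃ W', Adm W' ∧ ∀ e ∈ UU k W',
    (g ∈ UU k W → g + e ∈ UU k W) ∧ (g + e ∈ UU (k + 1) W → g ∈ UU k W) := by
  obtain ⟨x, rfl⟩ := Th_surj g
  choose T h1 h2 h3 h4 using exists_test
  obtain ⟨N, hN⟩ := exists_bound x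
  obtain ⟨M, hM⟩ := hW.2
  refine ⟨fun n => T (x n) ∩ {w | x n + w ∈ W n ↔ x n ∈ W n},
    ⟨fun n => ⟨(h1 _).inter ((hW.1 n).1.same _), h2 _, by simp⟩, max N M, fun n hn => ?_⟩, ?_⟩
  · dsimp only
    rw [h3 _ (hN n (by omega)), hM n (by omega)]
    simp
  rintro _ ⟨y, rfl, hy⟩
  constructor
  · rintro ⟨x', e, hx⟩
    obtain rfl := Th_inj e
    have := fun n => (h4 _ _ (hy n).2.1 k n).1 (hx n).1 (hy n).1
    exact ⟨x' + y, Th_add fun n => (this n).2, fun n => ⟨(this n).1, (hy n).2.2.2 (hx n).2⟩⟩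
  · rintro ⟨z, e, hz⟩
    obtain ⟨N1, b1⟩ := exists_bound y
    obtain ⟨N2, b2⟩ := exists_bound z
    have : ∀ n, z n = x n + y n ∧ Big k n (x n) := by
      refine down (max N (max N1 N2)) (fun n hn => ?_) fun m h => ?_
      · rw [hN n (by omega), b1 n (by omega), b2 n (by omega), add_zero]
        exact ⟨rfl, big_zero k n⟩
      · have e1 := Th_tri e m fun n hn => by
          rw [(h n hn).1]
          exact ((h4 _ _ (hy n).2.1 k n).1 (h n hn).2 (hy n).1).2
        exact ⟨e1, (h4 _ _ (hy m).2.1 k m).2 (e1 ▸ (hz m).1)⟩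
    exact ⟨x, rfl, fun n => ⟨(this n).2, (hy n).2.2.1 ((this n).1 ▸ (hz n).2)⟩⟩

lemma exists_not_mem {g : G} (hg : g ≠ 0) : ∃ W, Adm W ∧ g ∉ UU 0 W := by
  classical
  obtain ⟨x, rfl⟩ := Th_surj g
  have hx : x ≠ 0 := fun h => hg (by rw [h, Th_zero])
  obtain ⟨m, hm⟩ := Finsupp.ne_iff.1 hx
  obtain ⟨V, h1, h2, h3⟩ := exists_test_ne hm
  refine ⟨fun n => if n = m then V else univ, ⟨fun n => ?_, m + 1, fun n hn => if_neg (by omega)⟩,
    ?_⟩
  · dsimp only
    split_ifs
    · exact ⟨h1, h2⟩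
    · exact ⟨test_univ, trivial⟩
  · rintro ⟨z, e, hz⟩
    obtain rfl := Th_inj e
    have := (hz m).2
    simp only [if_true] at this
    exact h3 this

lemma single_mem {k n : ℕ} {W : ℕ → Set B} (hW : Adm W) {b : B} (h1 : Big k n b) (h2 : b ∈ W n) :
    Finsupp.single n b + sg n b • tg n ∈ UU k W := by
  refine ⟨_, Th_single n b, fun m => ?_⟩
  by_cases hm : m = n
  · rw [hm, Finsupp.single_eq_same]
    exact ⟨h1, h2⟩
  · rw [Finsupp.single_eq_of_ne hm]
    exact ⟨big_zero k m, (hW.1 m).2⟩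

end Pool.Agent.Lib.MP_e6ac2b_gt.Const
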