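import Pool.Agent.Lib.MP_e6ac2b_gt.ConstB

/-!
The topology: regular, separable, translation invariant, and every continuous real function is
constant.
-/

set_option autoImplicit false

open Filter Topology Set

namespace Pool.Agent.Lib.MP_e6ac2b_gt.Const

/-- The translation invariant topology with the given base at zero. -/
@[reducible] def tp : TopologicalSpace G where
  IsOpen O := ∀ g ∈ O, ∃ k W, Adm W ∧ ∀ e ∈ UU k W, g + e ∈ O
  isOpen_univ := fun _ _ => ⟨0, _, adm_univ, fun _ _ => trivial⟩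
  isOpen_inter := by
    intro s t hs ht g hg
    obtain ⟨k, W, h1, h2⟩ := hs g hg.1
    obtain ⟨l, W', h3, h4⟩ := ht g hg.2
    exact ⟨max k l, _, h1.inter h3, fun e he =>
      ⟨h2 e (UU_mono (le_max_left _ _) (fun _ => inter_subset_left) he),
        h4 e (UU_mono (le_max_right _ _) (fun _ => inter_subset_right) he)⟩⟩
  isOpen_sUnion := by
    rintro S hS g ⟨t, ht, hg⟩
    obtain ⟨k, W, h1, h2⟩ := hS t ht g hg
    exact ⟨k, W, h1, fun e he => ⟨t, ht, h2 e he⟩⟩

attribute [local instance] tp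

lemma isOpen_UU (g : G) (k : ℕ) {W : ℕ → Set B} (hW : Adm W) : IsOpen {x | g + x ∈ UU k W} := by
  intro x hx
  obtain ⟨W', h1, h2⟩ := key k hW (g + x)
  exact ⟨k, W', h1, fun e he => by
    show g + (x + e) ∈ UU k W
    rw [← add_assoc]
    exact (h2 e he).1 hx⟩

lemma mem_nhds_tp {g : G} {S : Set G} :
    S ∈ 𝓝 g ↔ ∃ k W, Adm W ∧ ∀ e ∈ UU k W, g + e ∈ S := by
  rw [mem_nhds_iff]
  constructor
  · rintro ⟨O, h1, h2, h3⟩
    obtain ⟨k, W, h4, h5⟩ := h2 g h3
    exact ⟨k, W, h4, fun e he => h1 (h5 e he)⟩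
  · rintro ⟨k, W, h1, h2⟩
    refine ⟨_, fun x hx => ?_, isOpen_UU g k h1, ?_⟩
    · have := h2 _ hx
      rwa [← add_assoc, G_add_self, zero_add] at this
    · show g + g ∈ UU k W
      rw [G_add_self]
      exact zero_mem_UU k h1

lemma cont_add (a : G) : Continuous fun x : G => a + x := by
  refine ⟨fun O hO g hg => ?_⟩
  obtain ⟨k, W, h1, h2⟩ := hO _ hg
  exact ⟨k, W, h1, fun e he => by
    show a + (g + e) ∈ O
    rw [← add_assoc]
    exact h2 e he⟩

lemma t1_tp : T1Space G := by
  rw [t1Space_iff_exists_open]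
  intro x y hxy
  have : x + y ≠ 0 := fun h => hxy (by
    rw [← add_zero x, ← G_add_self y, ← add_assoc, h, zero_add])
  obtain ⟨W, h1, h2⟩ := exists_not_mem this
  refine ⟨_, isOpen_UU x 0 h1, ?_, h2⟩
  show x + x ∈ UU 0 W
  rw [G_add_self]
  exact zero_mem_UU 0 h1

lemma regular_tp : RegularSpace G := by
  refine RegularSpace.of_exists_mem_nhds_isClosed_subset fun g S hS => ?_
  obtain ⟨k, W, h1, h2⟩ := mem_nhds_tp.1 hS
  refine ⟨closure {x | g + x ∈ UU (k + 1) W}, mem_of_superset
    ((isOpen_UU g (k + 1) h1).mem_nhds ?_) subset_closure, isClosed_closure, fun x hx => ?_⟩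
  · show g + g ∈ UU (k + 1) W
    rw [G_add_self]
    exact zero_mem_UU _ h1
  · obtain ⟨W', h3, h4⟩ := key k h1 (g + x)
    obtain ⟨z, hz1, hz2⟩ := mem_closure_iff.1 hx _ (isOpen_UU x k h3) (by
      show x + x ∈ UU k W'
      rw [G_add_self]
      exact zero_mem_UU _ h3)
    have := h2 _ ((h4 _ hz1).2 (by
      rw [add_assoc, ← add_assoc x, G_add_self, zero_add]
      exact hz2))
    rwa [← add_assoc, G_add_self, zero_add] at this

lemma cont_io (n : ℕ) : Continuous (io n) := by
  rw [continuous_iff_continuousAt]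
  intro y S hS
  obtain ⟨k, W, h1, h2⟩ := mem_nhds_tp.1 hS
  have h3 := ((h1.1 n).1 (Finsupp.single y 1)).isOpen.mem_nhds
    (show y ∈ _ by
      show Finsupp.single y 1 + Finsupp.single y 1 ∈ W n
      rw [add_self_eq_zero']
      exact (h1.1 n).2)
  rw [mem_map]
  filter_upwards [h3] with z hz
  have e : tot (Finsupp.single z 1 + Finsupp.single y 1) = 0 := by
    rw [map_add, tot_single, tot_single]
    decide
  have := h2 _ (single_mem h1 (big_even e) hz)
  rw [sg_even e, zero_smul, add_zero, Finsupp.single_add, add_comm (Finsupp.single n _),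
    ← add_assoc] at this
  rw [show io n y + Finsupp.single n (Finsupp.single y 1) = 0 from G_add_self _, zero_add] at this
  exact this

lemma dense_nodes : Dense (range fun p : ℕ × ℕ × List ℕ => Pt.node p.1 p.2.1 p.2.2) := by
  rw [dense_iff_inter_open]
  rintro V hV ⟨y, hy⟩
  cases y with
  | node j n s => exact ⟨_, hy, ⟨(j, n, s), rfl⟩⟩
  | br j n x h =>
    obtain ⟨k, hk⟩ := (hV.1 j n x h hy).exists
    exact ⟨_, hk.1, ⟨(j, n, res x k), rfl⟩⟩
  | top =>
    obtain ⟨m, hm⟩ := hV.2 hy
    exact ⟨Pt.node m m [], hm ⟨le_rfl, le_rfl⟩, ⟨(m, m, []), rfl⟩⟩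

/-- A closed set that contains zero and the nodes and is closed under addition is everything. -/
lemma all_of_closed {S : Set G} (hS : IsClosed S) (h0 : 0 ∈ S) (ha : ∀ a ∈ S, ∀ b ∈ S, a + b ∈ S)
    (hn : ∀ d, nd d ∈ S) (g : G) : g ∈ S := by
  induction g using Finsupp.induction_linear with
  | zero => exact h0
  | add f g hf hg => exact ha f hf g hg
  | single n b =>
    induction b using Finsupp.induction_linear with
    | zero => rwa [Finsupp.single_zero]
    | add f g hf hg =>
      rw [Finsupp.single_add]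
      exact ha _ hf _ hg
    | single y c =>
      have hc : c = 0 ∨ c = 1 := by
        revert c
        decide
      rcases hc with rfl | rfl
      · rwa [Finsupp.single_zero, Finsupp.single_zero]
      · have : closure (range fun p : ℕ × ℕ × List ℕ => Pt.node p.1 p.2.1 p.2.2) ⊆ io n ⁻¹' S :=
          closure_minimal (by rintro _ ⟨p, rfl⟩; exact hn (n, p)) (hS.preimage (cont_io n))
        exact this (dense_nodes y)

lemma separable_tp : TopologicalSpace.SeparableSpace G := by
  let S : AddSubmonoid G := AddSubmonoid.closure (range nd)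
  have hSc : (S : Set G).Countable := by
    have : (S : Set G) ⊆ range fun l : List (ℕ × ℕ × ℕ × List ℕ) => (l.map nd).sum := by
      intro x hx
      induction hx using AddSubmonoid.closure_induction with
      | mem x hx =>
        obtain ⟨d, rfl⟩ := hx
        exact ⟨[d], by simp⟩
      | zero => exact ⟨[], rfl⟩
      | add x y _ _ hx hy =>
        obtain ⟨l, rfl⟩ := hx
        obtain ⟨l', rfl⟩ := hy
        exact ⟨l ++ l', by simp⟩
    exact (countable_range _).mono this
  refine ⟨⟨S, hSc, all_of_closed isClosed_closure (subset_closure S.zero_mem) ?_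
    fun d => subset_closure (AddSubmonoid.subset_closure ⟨d, rfl⟩)⟩⟩
  intro a ha b hb
  have h1 : MapsTo (fun x => a + x) (S : Set G) (closure S) := by
    intro s hs
    have : MapsTo (fun x => s + x) (S : Set G) S := fun x hx => S.add_mem hs hx
    have := this.closure (cont_add s) ha
    simpa [add_comm] using this
  simpa using h1.closure (cont_add a) hb

lemma twin_le (f : G → ℝ) (hf : Continuous f) (d : ℕ × ℕ × ℕ × List ℕ) : f 0 ≤ f (nd d) := by
  by_contra hlt
  rw [not_le] at hlt
  set c := (f (nd d) + f 0) / 2 with hc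
  set δ := (f 0 - f (nd d)) / 4 with hδ
  have hδ0 : 0 < δ := by linarith
  obtain ⟨k1, W1, a1, a2⟩ := mem_nhds_tp.1
    (hf.continuousAt.eventually (lt_mem_nhds (show c + δ < f 0 by linarith)))
  obtain ⟨k2, W2, b1, b2⟩ := mem_nhds_tp.1
    (hf.continuousAt.eventually (gt_mem_nhds (show f (nd d) < c by linarith)))
  obtain ⟨N1, c1⟩ := a1.2
  obtain ⟨N2, c2⟩ := b1.2
  obtain ⟨m, hm, ht⟩ := exists_tg d (N1 + N2 + k1 + 1)
  have hF : Continuous fun y => f (io m y) := hf.comp (cont_io m)
  have chain : ∀ n : ℕ, ∃ k : ℕ, ∃ x₀ : ℕ → ℕ, ∀ x (h : Rk n x), (∀ i < k, x i = x₀ i) →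
      (∀ i, k ≤ i → n ≤ x i) → c + δ * (1 / 2 : ℝ) ^ n ≤ f (io m (Pt.br 0 n x h)) := by
    intro n
    induction n with
    | zero =>
      refine ⟨0, fun _ => 0, fun x h _ _ => ?_⟩
      have e : val m (Finsupp.single (Pt.br 0 0 x h) 1) = -1 - 2 * m := by
        rw [val_single]
        simp [pos]
      have e1 : sg m (Finsupp.single (Pt.br 0 0 x h) 1) = 0 := if_neg fun h' => by
        have := h'.2
        omega
      have := a2 _ (single_mem (n := m) (b := Finsupp.single (Pt.br 0 0 x h) 1) a1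
        (fun _ => by omega) (by rw [c1 m (by omega)]; trivial))
      rw [e1, zero_smul, add_zero, zero_add] at this
      rw [pow_zero, mul_one]
      exact le_of_lt this
    | succ n ih =>
      obtain ⟨k, x₀, hP⟩ := ih
      refine step _ hF 0 n k x₀ ?_ hP
      have : (0 : ℝ) < δ * (1 / 2) ^ n := by positivity
      rw [pow_succ (1 / 2 : ℝ) n]
      linarith
  obtain ⟨k, x₀, hP⟩ := chain (m + k2 + 2)
  let x : ℕ → ℕ := fun i => if i < k then x₀ i else m + k2 + 2
  have hx : ∀ i, k ≤ i → x i = m + k2 + 2 := fun i hi => if_neg (not_lt.2 hi)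
  have hRk : Rk (m + k2 + 2) x :=
    ⟨eventually_atTop.2 ⟨k, fun i hi => (hx i hi).ge⟩,
      (eventually_atTop.2 ⟨k, hx⟩).frequently⟩
  have h1 := hP x hRk (fun i hi => if_pos hi) (fun i hi => (hx i hi).ge)
  have e : val m (Finsupp.single (Pt.br 0 (m + k2 + 2) x hRk) 1) = 2 * k2 + 3 := by
    rw [val_single]
    simp only [pos, if_true]
    push_cast
    ring
  have e1 : sg m (Finsupp.single (Pt.br 0 (m + k2 + 2) x hRk) 1) = 1 :=
    if_pos ⟨tot_single _, by omega⟩
  have := b2 _ (single_mem (n := m) (b := Finsupp.single (Pt.br 0 (m + k2 + 2) x hRk) 1) b1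
    (fun _ => by omega) (by rw [c2 m (by omega)]; trivial))
  rw [e1, one_smul, ht, add_comm _ (nd d), ← add_assoc, G_add_self, zero_add] at this
  have h2 : f (io m (Pt.br 0 (m + k2 + 2) x hRk)) < c := this
  have : (0 : ℝ) < δ * (1 / 2) ^ (m + k2 + 2) := by positivity
  linarith

lemma const_tp (f : G → ℝ) (hf : Continuous f) (x y : G) : f x = f y := by
  have tw : ∀ f : G → ℝ, Continuous f → ∀ d, f (nd d) = f 0 := fun f hf d =>
    le_antisymm (neg_le_neg_iff.1 (twin_le (fun x => -f x) hf.neg d)) (twin_le f hf d)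
  have : ∀ g, g ∈ ⋂ f : {f : G → ℝ // Continuous f}, {g | f.1 g = f.1 0} := by
    refine all_of_closed (isClosed_iInter fun f => isClosed_eq f.2 continuous_const)
      (mem_iInter.2 fun _ => rfl) (fun a ha b hb => mem_iInter.2 fun f => ?_)
      fun d => mem_iInter.2 fun f => tw f.1 f.2 d
    have h1 := mem_iInter.1 hb ⟨fun x => f.1 (a + x), f.2.comp (cont_add a)⟩
    have h2 := mem_iInter.1 ha f
    simp only [mem_ofPred_eq, add_zero] at h1 h2 ⊢
    exact h1.trans h2
  exact (mem_iInter.1 (this x) ⟨f, hf⟩).trans (mem_iInter.1 (this y) ⟨f, hf⟩).symm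

theorem main : ∃ _ : TopologicalSpace G, (∀ a : G, Continuous fun x : G => a + x) ∧ T1Space G ∧
    RegularSpace G ∧ TopologicalSpace.SeparableSpace G ∧
    ∀ f : G → ℝ, Continuous f → ∀ x y, f x = f y :=
  ⟨tp, cont_add, t1_tp, regular_tp, separable_tp, const_tp⟩

end Pool.Agent.Lib.MP_e6ac2b_gt.Const
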